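import Pool.Agent.Lib.MP_e2257e_gt.C.MStmt
import Pool.Agent.Lib.MP_e2257e_gt.Main

/-!
# MP_e2257e_gt : it is consistent that the answer to Q1 is negative

A countable transitive model of ZFC with an index set `E` of size less than the bounding number and
a family of sets of irrational numbers indexed by `E`, each of whose function spaces satisfies
`S₁(Γ₀, Γ₀)`, while the function space of the union does not.
-/

set_option autoImplicit false

namespace Pool.Agent.Results.MP_e2257e_gt.ConsistentFailure

open Pool.Agent.CR Pool.Agent.CW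

theorem result : ∃ N : Set V, N.Countable ∧ IsTransModelZFC N ∧
    ∃ E ∈ N, ∃ 𝒳 ∈ N, LtB N E ∧
      (∀ e ∈ E, ∀ x ∈ fib 𝒳 e, Irrational x) ∧
      (∀ e ∈ E, Selective N (fib 𝒳 e)) ∧
      ¬ Selective N {x | ∃ e ∈ E, x ∈ fib 𝒳 e} :=
  Pool.Agent.CW.main

end Pool.Agent.Results.MP_e2257e_gt.ConsistentFailure
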